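import Pool.Agent.R414.DT.Rl

set_option autoImplicit false
set_option linter.unusedSectionVars false

/-! Curves with a prescribed leading form: the ranges. -/

open Finset

namespace Pool.Agent.R414.DT

open Pool.Agent.R414.DN Pool.Agent.R414.DS

variable {d : ℕ}

lemma lead_congr {a b : Cf d} (h : ∀ i, co a d i = co b d i) (hb : Lead b) : Lead a := by
  have h1 : topRow a = topRow b := by
    funext j
    exact h j
  unfold Lead at hb ⊢
  rw [h1, h]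
  exact hb

lemma TT_row {a b : Cf d} (h : ∀ i, co a d i = co b d i) (i : ℕ) (t : ℝ) :
    TT (co a) d i t = TT (co b) d i t := by
  unfold TT
  refine sum_congr rfl fun j _ => ?_
  rw [h j]

/-- the leading form and its derivative are not both small -/
lemma exists_cst {b : Cf d} (hd : 1 ≤ d) (hL : Lead b) : ∃ c : ℝ, 0 < c ∧ c ≤ 1 ∧
    ∀ t : ℝ, |t| ≤ 2 → c ≤ |TT (co b) d 0 t| ∨ c ≤ |TT (co b) d 1 t| := by
  have hcont : ∀ i, Continuous (fun t : ℝ => |TT (co b) d i t|) := by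
    intro i
    unfold TT
    fun_prop
  obtain ⟨t0, -, hmin⟩ := (isCompact_Icc (a := (-2 : ℝ)) (b := 2)).exists_isMinOn
    ⟨0, by norm_num, by norm_num⟩ (((hcont 0).max (hcont 1)).continuousOn)
  obtain ⟨m, hm⟩ : ∃ m, m = max |TT (co b) d 0 t0| |TT (co b) d 1 t0| := ⟨_, rfl⟩
  have hm0 : 0 < m := by
    by_contra h
    rw [not_lt, hm] at h
    have h0 : TT (co b) d 0 t0 = 0 := abs_nonpos_iff.1 (le_trans (le_max_left _ _) h)
    have h1 : TT (co b) d 1 t0 = 0 := abs_nonpos_iff.1 (le_trans (le_max_right _ _) h)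
    exact TT1_ne hd hL h0 h1
  refine ⟨min m 1, lt_min hm0 one_pos, min_le_right _ _, fun t ht => ?_⟩
  have h1 : m ≤ max |TT (co b) d 0 t| |TT (co b) d 1 t| := by
    rw [hm]
    exact hmin (abs_le.1 ht)
  rcases le_max_iff.1 h1 with h | h
  · exact Or.inl ((min_le_left _ _).trans h)
  · exact Or.inr ((min_le_left _ _).trans h)

section

variable {b : Cf d} {H : ℕ} {c : ℝ} (hH : 1 ≤ H) (hc0 : 0 < c) (hc1 : c ≤ 1)
  (hcb : ∀ t : ℝ, |t| ≤ 2 → c ≤ |TT (co b) d 0 t| ∨ c ≤ |TT (co b) d 1 t|)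

include hH hc0 hc1

lemma w_one : 1 ≤ (H : ℝ) / c := by
  have hH' : (1 : ℝ) ≤ H := by exact_mod_cast hH
  rw [le_div_iff₀ hc0]
  linarith

include hcb in
lemma GA_QF {a : Cf d} (ha : a ∈ QF b H) : GA (co a) d H (H / c) := by
  have hH' : (1 : ℝ) ≤ H := by exact_mod_cast hH
  have hH0 : (0 : ℝ) < H := by linarith
  intro t ht
  rw [TT_row (mem_QF.1 ha).2, TT_row (mem_QF.1 ha).2]
  have e1 : (H : ℝ) / (H / c) = c := by field_simp
  have e2 : (H : ℝ) / (H / c) ^ 2 ≤ c := by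
    have : (H : ℝ) / (H / c) ^ 2 = c * (c / H) := by field_simp
    rw [this]
    have h3 : c / H ≤ 1 := by
      rw [div_le_one hH0]
      linarith
    nlinarith
  rw [e1]
  rcases hcb t ht with h | h
  · exact Or.inl (e2.trans h)
  · exact Or.inr h

include hcb in
/-- **Points of moderate size.** -/
theorem mid1_QF (hd : 4 ≤ d) (hL : Lead b) {X : ℕ} {S : Finset (Cf d)} (hS : S ⊆ QF b H)
    (hz : ∀ a ∈ S, ∃ x y : ℤ, Fv (co a) d x y = 0 ∧ |x| ≤ |y| ∧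
      4 * d ^ 2 * c1 d ^ 2 * (H / c) ^ 2 ≤ |(y : ℝ)| ∧ 2 * H < y.natAbs ∧ y.natAbs ≤ X) :
    (S.card : ℝ) ≤ ((2 * X + 1) * (d * (2 * (2 * d * c1 d * (H / c)) + 1))) *
      (2 * (H : ℝ) + 1) ^ (MM d - (d + 1) - d) := by
  classical
  have hH' : (1 : ℝ) ≤ H := by exact_mod_cast hH
  have hcp := c1_pos d
  have hNR := noRoot_of_lead (by omega : 2 ≤ d) hL
  have hw := w_one hH hc0 hc1
  obtain ⟨W, hW⟩ : ∃ W : ℝ, W = 2 * d * c1 d * (H / c) := ⟨_, rfl⟩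
  have hW0 : 0 ≤ W := by rw [hW]; positivity
  rw [← hW]
  obtain ⟨K, hK⟩ : ∃ K : Finset (ℤ × ℤ), K = (Icc (-(X : ℤ)) X ×ˢ Icc (-(X : ℤ)) X).filter
    (fun P => 2 * H < P.2.natAbs ∧ ∃ α ∈ rts (co b) d, |(P.1 : ℝ) - α * P.2| ≤ W) := ⟨_, rfl⟩
  have hKc : (K.card : ℝ) ≤ (2 * X + 1) * (d * (2 * W + 1)) := by
    have key := card_cover (S := K) (K := Icc (-(X : ℤ)) X ×ˢ rts (co b) d)
      (fun q P => P.2 = q.1 ∧ |(P.1 : ℝ) - q.2 * P.2| ≤ W) (B := 2 * W + 1) ?_ ?_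
    · rw [card_product, card_Icc_H] at key
      refine key.trans ?_
      have h1 : ((rts (co b) d).card : ℝ) ≤ d := by exact_mod_cast card_rts (co b) d
      push_cast
      calc (2 * (X : ℝ) + 1) * ((rts (co b) d).card : ℝ) * (2 * W + 1)
          ≤ (2 * (X : ℝ) + 1) * d * (2 * W + 1) := by gcongr
        _ = _ := by ring
    · intro P hP
      rw [hK, mem_filter, mem_product] at hP
      obtain ⟨⟨-, h2⟩, -, α, hα, h3⟩ := hP
      exact ⟨(P.2, α), mem_product.2 ⟨h2, hα⟩, rfl, h3⟩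
    · intro q _ T hT hq
      have h1 : T.card = (T.image fun P => P.1).card := by
        rw [card_image_of_injOn]
        intro P hP P' hP' hPP
        rw [mem_coe] at hP hP'
        exact Prod.ext hPP ((hq P hP).1.trans (hq P' hP').1.symm)
      rw [h1]
      apply int_window hW0 (c := q.2 * q.1)
      intro n hn
      rw [mem_image] at hn
      obtain ⟨P, hP, rfl⟩ := hn
      have h2 := (hq P hP).2
      rw [(hq P hP).1] at h2
      exact h2
  have key := card_cover (S := S) (K := K) (fun P a => Fv (co a) d P.1 P.2 = 0)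
    (B := (2 * (H : ℝ) + 1) ^ (MM d - (d + 1) - d)) ?_ ?_
  · exact key.trans (by gcongr)
  · intro a ha
    obtain ⟨x, y, h0, hxy, hy1, hy2, hy3⟩ := hz a ha
    have haQ := hS ha
    obtain ⟨α, -, h2, -, h4⟩ := exists_rootA (by omega : 1 ≤ d) (co_le' (QF_sub b H haQ)) hH' hw
      (GA_QF hH hc0 hc1 hcb haQ) hxy hy1 h0
    refine ⟨(x, y), ?_, h0⟩
    rw [hK, mem_filter, mem_product, mem_Icc, mem_Icc]
    have hxy' : x.natAbs ≤ y.natAbs := by
      rw [Int.abs_eq_natAbs, Int.abs_eq_natAbs] at hxy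
      exact_mod_cast hxy
    refine ⟨⟨⟨by simp only; omega, by simp only; omega⟩, by simp only; omega, by simp only; omega⟩,
      hy2, α, ?_, ?_⟩
    · apply mem_rts hNR
      rw [← TT_row (mem_QF.1 haQ).2]
      exact h2
    · rw [hW]
      exact h4
  · intro P hP T hT hTP
    rw [hK, mem_filter] at hP
    have hne : P.2 ≠ 0 := by
      intro h
      rw [h] at hP
      simp at hP
    have h1 := zero_at_QF hd (hT.trans hS) (x := P.1) hne hTP
    rw [Nat.div_eq_of_lt hP.2.1] at h1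
    simpa using h1

/-- bound for the fibres -/
lemma MB_le2 {Y₁ L : ℝ} (hL0 : 0 ≤ L) (hlog0 : 0 ≤ Real.log Y₁)
    (hL : Real.log Y₁ ≤ L * Real.sqrt H) :
    (MB d (H / c) H 1 Y₁ : ℝ) ≤ 8 * s1 d * d * (4 * KN d 1 * L + 1) * (1 / c) ^ 5 *
      (H : ℝ) ^ 6 := by
  have hH' : (1 : ℝ) ≤ H := by exact_mod_cast hH
  have hH0 : (0 : ℝ) < H := by linarith
  have hcp := c1_pos d
  have hK := KN_one (d := d) (le_refl (1 : ℝ))
  obtain ⟨v, hv⟩ : ∃ v : ℝ, v = 1 / c := ⟨_, rfl⟩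
  have hv1 : 1 ≤ v := by rw [hv, le_div_iff₀ hc0]; linarith
  have hw : (H : ℝ) / c = v * H := by rw [hv]; ring
  rw [← hv, hw]
  have hs1 : 1 ≤ s1 d := by
    unfold s1
    have h1 : 1 ≤ KN d 1 ^ 7 := one_le_pow₀ hK
    calc (1 : ℝ) ≤ 12800 * 1 * 1 := by norm_num
      _ ≤ _ := by gcongr
  have hsq : 1 ≤ Real.sqrt H := by
    rw [Real.one_le_sqrt]
    exact hH'
  have hsqH : Real.sqrt H ≤ H := by
    rw [Real.sqrt_le_left hH0.le]
    nlinarith
  have hBB : BB d (v * H) H 1 = s1 d * v ^ 7 * H ^ 8 := by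
    unfold BB s1
    rw [KN_scale d (v * H)]
    field_simp
  have h1 : Real.sqrt (BB d (v * H) H 1) ≤ s1 d * v ^ 4 * H ^ 4 := by
    rw [hBB]
    apply Real.sqrt_le_iff.2
    constructor
    · positivity
    · have h2 : (s1 d * v ^ 4 * (H : ℝ) ^ 4) ^ 2 = s1 d ^ 2 * v ^ 8 * H ^ 8 := by ring
      rw [h2]
      have h3 : s1 d ≤ s1 d ^ 2 := le_self_pow₀ hs1 two_ne_zero
      have h4 : v ^ 7 ≤ v ^ 8 := pow_le_pow_right₀ hv1 (by norm_num)
      gcongr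
  have h2 : (⌊2 * Real.sqrt (BB d (v * H) H 1) + 2⌋₊ : ℝ) ≤ 4 * s1 d * v ^ 4 * H ^ 4 := by
    refine (Nat.floor_le (by positivity)).trans ?_
    have h3 : 1 ≤ s1 d * v ^ 4 * (H : ℝ) ^ 4 := by
      have h4 : 1 ≤ v ^ 4 := one_le_pow₀ hv1
      have h5 : 1 ≤ (H : ℝ) ^ 4 := one_le_pow₀ hH'
      calc (1 : ℝ) = 1 * 1 * 1 := by norm_num
        _ ≤ _ := by gcongr
    linarith
  have hvH : 1 ≤ v * H := by
    calc (1 : ℝ) = 1 * 1 := by norm_num
      _ ≤ _ := by gcongr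
  have h3 : (⌊4 * KN d (v * H) * Real.log Y₁⌋₊ : ℝ) ≤ 4 * KN d 1 * L * (v * H ^ 2) := by
    refine (Nat.floor_le (by have := KN_one (d := d) hvH; positivity)).trans ?_
    rw [KN_scale d (v * H)]
    calc 4 * (KN d 1 * (v * H)) * Real.log Y₁ ≤ 4 * (KN d 1 * (v * H)) * (L * H) := by
          have := hL.trans (mul_le_mul_of_nonneg_left hsqH hL0)
          gcongr
      _ = _ := by ring
  have h4 : (⌊4 * KN d (v * H) * Real.log Y₁⌋₊ : ℝ) + 1 ≤
      (4 * KN d 1 * L + 1) * (v * H ^ 2) := by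
    have h5 : 1 ≤ v * (H : ℝ) ^ 2 := by
      have h5 : 1 ≤ (H : ℝ) ^ 2 := one_le_pow₀ hH'
      calc (1 : ℝ) = 1 * 1 := by norm_num
        _ ≤ _ := by gcongr
    have h6 : (4 * KN d 1 * L + 1) * (v * (H : ℝ) ^ 2) =
      4 * KN d 1 * L * (v * H ^ 2) + v * H ^ 2 := by ring
    rw [h6]
    linarith
  unfold MB
  push_cast
  calc (⌊2 * Real.sqrt (BB d (v * H) H 1) + 2⌋₊ : ℝ) *
        (d * (2 * ((⌊4 * KN d (v * H) * Real.log Y₁⌋₊ : ℝ) + 1)))
      ≤ (4 * s1 d * v ^ 4 * H ^ 4) *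
        (d * (2 * ((4 * KN d 1 * L + 1) * (v * H ^ 2)))) := by gcongr
    _ = _ := by ring

include hcb in
/-- **Middle range.** -/
theorem mid2_QF (hd : 10 ≤ d) {Y₀ Y₁ L : ℝ}
    (hY0 : 312 * KN d 1 ^ 5 * c1 d * (1 / c) ^ 5 * (H : ℝ) ^ 6 ≤ Y₀)
    (hL0 : 0 ≤ L) (hlog0 : 0 ≤ Real.log Y₁) (hL : Real.log Y₁ ≤ L * Real.sqrt H)
    {S : Finset (Cf d)} (hS : S ⊆ QF b H) (hY : ∀ a ∈ S, YT d H Y₀ Y₁ a) :
    (S.card : ℝ) ≤ (3 * d + 8 * s1 d * d * (4 * KN d 1 * L + 1) * (1 / c) ^ 5) *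
      (2 * (H : ℝ) + 1) ^ (MM d - (d + 1) - 1) := by
  classical
  have hH' : (1 : ℝ) ≤ H := by exact_mod_cast hH
  have hH0 : (0 : ℝ) < H := by linarith
  have hcp := c1_pos d
  have hK := KN_one (d := d) (le_refl (1 : ℝ))
  have hw := w_one hH hc0 hc1
  have hX : (1 : ℝ) ≤ 2 * (H : ℝ) + 1 := by linarith
  have hM := MM_big (by omega : 4 ≤ d)
  have hs1 : 0 ≤ s1 d := by unfold s1; positivity
  obtain ⟨v, hv⟩ : ∃ v : ℝ, v = 1 / c := ⟨_, rfl⟩
  have hv1 : 1 ≤ v := by rw [hv, le_div_iff₀ hc0]; linarith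
  have hwv : (H : ℝ) / c = v * H := by rw [hv]; ring
  have hG : ∀ a ∈ S, GA (co a) d H (H / c) := fun a ha => GA_QF hH hc0 hc1 hcb (hS ha)
  have hMB := MB_le2 (d := d) (Y₁ := Y₁) (L := L) hH hc0 hc1 hL0 hlog0 hL
  rw [← hv] at hY0 hMB ⊢
  -- first part
  obtain ⟨p2, hp2⟩ : ∃ p2 : ↥(I d), p2.1 = (d - 2, 0) :=
    ⟨⟨(d - 2, 0), by rw [mem_I]; exact ⟨Nat.sub_le _ _, Nat.zero_le _⟩⟩, rfl⟩
  have b1 := rel_QF (H := H) (S := S.filter fun a => ¬ GB (co a) d 1)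
    ((filter_subset _ _).trans hS) {p2} (by
      intro p hp
      rw [mem_singleton] at hp
      rw [hp, hp2]
      simp only
      omega) (B := d * (2 * 1 + 1)) (by positivity) (by
      intro b' T hT hTb
      exact fiber_notGB (by omega) zero_le_one p2 hp2 b' T hTb
        (fun a ha => (hY a (mem_filter.1 (hT ha)).1).nr) (fun a ha => (mem_filter.1 (hT ha)).2))
    (card_singleton _) (by omega)
  -- second part
  have hKd : 2 * d * c1 d ≤ KN d 1 := by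
    have h1 := (KN_ge (d := d) (le_refl (1 : ℝ))).1
    unfold WW at h1
    linarith
  have hpow : ∀ m n : ℕ, m ≤ 5 → n ≤ 6 → v ^ m * (H : ℝ) ^ n ≤ v ^ 5 * (H : ℝ) ^ 6 := by
    intro m n hm hn
    have h1 : v ^ m ≤ v ^ 5 := pow_le_pow_right₀ hv1 hm
    have h2 : (H : ℝ) ^ n ≤ (H : ℝ) ^ 6 := pow_le_pow_right₀ hH' hn
    gcongr
  have hYa : 4 * d ^ 2 * c1 d ^ 2 * (H / c) ^ 2 ≤ Y₀ := by
    refine le_trans ?_ hY0
    rw [hwv]
    calc 4 * d ^ 2 * c1 d ^ 2 * (v * H) ^ 2 = 1 * (2 * d * c1 d) ^ 2 * 1 * (v ^ 2 * (H : ℝ) ^ 2) := by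
          ring
      _ ≤ 312 * KN d 1 ^ 5 * c1 d * (v ^ 5 * (H : ℝ) ^ 6) := by
        have h1 : (2 * d * c1 d) ^ 2 ≤ KN d 1 ^ 5 :=
          (pow_le_pow_left₀ (by positivity) hKd 2).trans (pow_le_pow_right₀ hK (by norm_num))
        have h2 := hpow 2 2 (by norm_num) (by norm_num)
        gcongr
        norm_num
      _ = _ := by ring
  have hYb : 156 * KN d (H / c) ^ 3 ≤ Y₀ := by
    refine le_trans ?_ hY0
    rw [hwv, KN_scale]
    calc 156 * (KN d 1 * (v * H)) ^ 3 = 156 * KN d 1 ^ 3 * 1 * (v ^ 3 * (H : ℝ) ^ 3) := by ring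
      _ ≤ 312 * KN d 1 ^ 5 * c1 d * (v ^ 5 * (H : ℝ) ^ 6) := by
        have h1 : KN d 1 ^ 3 ≤ KN d 1 ^ 5 := pow_le_pow_right₀ hK (by norm_num)
        have h2 := hpow 3 3 (by norm_num) (by norm_num)
        gcongr
        norm_num
      _ = _ := by ring
  have hYc : 312 * KN d (H / c) ^ 5 ≤ 1 / (c1 d * H) * Y₀ := by
    rw [one_div_mul_eq_div, le_div_iff₀ (by positivity), hwv, KN_scale]
    refine le_trans (le_of_eq ?_) hY0
    ring
  have hY2 : 2 * (H : ℝ) < Y₀ := by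
    refine lt_of_lt_of_le ?_ hY0
    calc 2 * (H : ℝ) < 312 * 1 * 1 * (v ^ 0 * (H : ℝ) ^ 1) := by
          rw [pow_zero, pow_one]
          linarith
      _ ≤ 312 * KN d 1 ^ 5 * c1 d * (v ^ 5 * (H : ℝ) ^ 6) := by
        have h1 : 1 ≤ KN d 1 ^ 5 := one_le_pow₀ hK
        have h2 := hpow 0 1 (by norm_num) (by norm_num)
        gcongr
      _ = _ := by ring
  have b2 := rel_QF (H := H) (S := S.filter fun a => ¬ ¬ GB (co a) d 1)
    ((filter_subset _ _).trans hS) (J4 d) (by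
      intro p hp
      unfold J4 at hp
      rw [mem_filter] at hp
      omega) (B := (MB d (H / c) H 1 Y₁ : ℝ)) (Nat.cast_nonneg _) (by
      intro b' T hT hTb
      have h1 := mid_fiber (H := H) (g := 1) (by omega : 4 ≤ d) hH hw one_pos hYa hYb hYc hY2 b' T
        ((hT.trans (filter_subset _ _)).trans (hS.trans (QF_sub b H))) hTb
        (fun a ha => (hY a (mem_filter.1 (hT ha)).1).nr)
        (fun a ha => hG a (mem_filter.1 (hT ha)).1)
        (fun a ha => not_not.1 (mem_filter.1 (hT ha)).2)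
        (fun a ha => (hY a (mem_filter.1 (hT ha)).1).z)
      exact_mod_cast h1) (card_J4 d) (by omega)
  have b2' : ((S.filter fun a => ¬ ¬ GB (co a) d 1).card : ℝ) ≤
      (8 * s1 d * d * (4 * KN d 1 * L + 1) * v ^ 5) *
      (2 * (H : ℝ) + 1) ^ (MM d - (d + 1) - 1) := by
    refine b2.trans ?_
    have h1 : (H : ℝ) ^ 6 * (2 * (H : ℝ) + 1) ^ (MM d - (d + 1) - (d - 3)) ≤
        (2 * (H : ℝ) + 1) ^ (MM d - (d + 1) - 1) := by
      calc (H : ℝ) ^ 6 * (2 * (H : ℝ) + 1) ^ (MM d - (d + 1) - (d - 3))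
          ≤ (2 * (H : ℝ) + 1) ^ 6 * (2 * (H : ℝ) + 1) ^ (MM d - (d + 1) - (d - 3)) := by
            gcongr
            linarith
        _ = (2 * (H : ℝ) + 1) ^ (6 + (MM d - (d + 1) - (d - 3))) := by rw [← pow_add]
        _ ≤ _ := by
            apply pow_le_pow_right₀ hX
            omega
    calc (MB d (H / c) H 1 Y₁ : ℝ) * (2 * (H : ℝ) + 1) ^ (MM d - (d + 1) - (d - 3))
        ≤ (8 * s1 d * d * (4 * KN d 1 * L + 1) * v ^ 5 * (H : ℝ) ^ 6) *
          (2 * (H : ℝ) + 1) ^ (MM d - (d + 1) - (d - 3)) := by gcongr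
      _ = (8 * s1 d * d * (4 * KN d 1 * L + 1) * v ^ 5) * ((H : ℝ) ^ 6 *
          (2 * (H : ℝ) + 1) ^ (MM d - (d + 1) - (d - 3))) := by ring
      _ ≤ _ := by
          have h0 : 0 ≤ 8 * s1 d * d * (4 * KN d 1 * L + 1) * v ^ 5 := by positivity
          exact mul_le_mul_of_nonneg_left h1 h0
  have h5 : ((S.filter fun a => ¬ GB (co a) d 1).card : ℝ) +
      ((S.filter fun a => ¬ ¬ GB (co a) d 1).card : ℝ) = S.card := by
    have := card_filter_add_card_filter_not (s := S) (fun a => ¬ GB (co a) d 1)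
    exact_mod_cast this
  have e : (3 * d + 8 * s1 d * d * (4 * KN d 1 * L + 1) * v ^ 5) *
      (2 * (H : ℝ) + 1) ^ (MM d - (d + 1) - 1) =
      d * (2 * 1 + 1) * (2 * (H : ℝ) + 1) ^ (MM d - (d + 1) - 1) +
      (8 * s1 d * d * (4 * KN d 1 * L + 1) * v ^ 5) *
      (2 * (H : ℝ) + 1) ^ (MM d - (d + 1) - 1) := by ring
  rw [e]
  linarith

end

end Pool.Agent.R414.DT
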