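import Pool.Agent.R414.DT.Fx

set_option autoImplicit false
set_option linter.unusedSectionVars false
set_option maxHeartbeats 400000

/-! Curves with a prescribed leading form: assembly. -/

open Finset

namespace Pool.Agent.R414.DT

open Pool.Agent.R414.DN Pool.Agent.R414.DS

variable {d : ℕ}

/-- fibres of curves with a huge point -/
lemma large_fiber (hd : 4 ≤ d) (T : Finset (Cf d)) (c : Cf d)
    (hTb : ∀ a ∈ T, ∀ i ∉ (univ : Finset ↥(I d)).filter fun p => p.1.1 + 4 ≤ d, a i = c i)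
    (hz : ∀ a ∈ T, Lead a ∧ LinesC a ∧ ∃ x y : ℤ, Fv (co a) d x y = 0 ∧
      ((d + 1) * Pool.Agent.H322R2.len (poly a)) ^ Pool.Agent.H674R3.kG d <
        max x.natAbs y.natAbs) : T.card ≤ Pool.Agent.H322R2.kN d * d := by
  classical
  obtain ⟨N, hN⟩ : ∃ N, N = Pool.Agent.H322R2.kN d * d := ⟨_, rfl⟩
  obtain ⟨G, hG⟩ : ∃ G, G = Pool.Agent.H674R3.kG d := ⟨_, rfl⟩
  rw [← hN]
  rw [← hG] at hz
  rcases T.eq_empty_or_nonempty with h0 | ⟨a₀, h0⟩
  · rw [h0, card_empty]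
    exact Nat.zero_le _
  obtain ⟨hL0, hlines, -⟩ := hz a₀ h0
  have hirr : Irreducible (LF a₀) := irr_poly (by omega) hL0
  have hdeg : (poly a₀).totalDegree = d := totalDegree_poly hL0.1
  have hex : ∀ a ∈ T, ∃ x y : ℤ, Fv (co a) d x y = 0 ∧
      ((d + 1) * Pool.Agent.H322R2.len (poly a)) ^ G < max x.natAbs y.natAbs :=
    fun a ha => (hz a ha).2.2
  choose! x y hxy using hex
  have hmain := Pool.Agent.H674R3.main6 (poly a₀) (by rw [hdeg]; exact hd)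
    (by rw [hdeg]; exact hirr.squarefree)
    (by
      rw [hdeg]
      exact fun _ => hlines)
  rw [hdeg, ← hN, ← hG] at hmain
  have hinj : (T.image fun a => (poly a, x a, y a)).card = T.card := by
    apply card_image_of_injective
    intro a a' h
    exact poly_inj (Prod.mk.inj h).1
  have hsub : ((T.image fun a => (poly a, x a, y a) :
      Finset (MvPolynomial (Fin 2) ℤ × ℤ × ℤ)) : Set (MvPolynomial (Fin 2) ℤ × ℤ × ℤ)) ⊆
      {t : MvPolynomial (Fin 2) ℤ × ℤ × ℤ | (t.1 - poly a₀).totalDegree + 4 ≤ d ∧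
      Irreducible (MvPolynomial.map (Int.castRingHom ℚ) t.1) ∧
      MvPolynomial.eval ![t.2.1, t.2.2] t.1 = 0 ∧
      ((d + 1) * Pool.Agent.H322R2.len t.1) ^ G <
        max t.2.1.natAbs t.2.2.natAbs} := by
    intro t ht
    rw [mem_coe, mem_image] at ht
    obtain ⟨a, ha, rfl⟩ := ht
    have h3 := hxy a ha
    refine ⟨?_, irr_of_Lead (by omega) (hz a ha).1, ?_, h3.2⟩
    · apply totalDegree_sub hd
      intro p hp
      have hpJ : p ∉ (univ : Finset ↥(I d)).filter fun p => p.1.1 + 4 ≤ d := by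
        rw [mem_filter]
        rintro ⟨-, h4⟩
        omega
      rw [hTb a ha p hpJ, hTb a₀ h0 p hpJ]
    · simp only
      rw [eval_poly]
      exact h3.1
  have h4 := (Set.encard_le_encard hsub).trans hmain
  rw [Set.encard_coe_eq_coe_finsetCard, hinj] at h4
  exact_mod_cast h4

/-- the bound for huge points in the fibres -/
def LargeF (d G N : ℕ) : Prop := ∀ (T : Finset (Cf d)) (c : Cf d),
    (∀ a ∈ T, ∀ i ∉ (univ : Finset ↥(I d)).filter fun p => p.1.1 + 4 ≤ d, a i = c i) →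
    (∀ a ∈ T, Lead a ∧ LinesC a ∧ ∃ x y : ℤ, Fv (co a) d x y = 0 ∧
      ((d + 1) * Pool.Agent.H322R2.len (poly a)) ^ G < max x.natAbs y.natAbs) → T.card ≤ N

lemma exists_largeF (hd : 4 ≤ d) : ∃ G N : ℕ, LargeF d G N :=
  ⟨_, _, fun T c hTb hz => large_fiber hd T c hTb hz⟩

/-- fibres of the curves that violate the condition on lines -/
lemma lines_fiber (hd : 4 ≤ d) (p2 : ↥(I d)) (hp2 : p2.1 = (d - 2, 0)) (T : Finset (Cf d))
    (c : Cf d) (hTb : ∀ a ∈ T, ∀ i ∉ ({p2} : Finset ↥(I d)), a i = c i)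
    (hz : ∀ a ∈ T, Lead a ∧ ¬ LinesC a) : T.card ≤ d := by
  classical
  rcases T.eq_empty_or_nonempty with h0 | ⟨a₀, h0⟩
  · rw [h0, card_empty]
    exact Nat.zero_le _
  have hp21 : p2.1.1 = d - 2 := congrArg Prod.fst hp2
  have hp22 : p2.1.2 = 0 := congrArg Prod.snd hp2
  have hex : ∀ a ∈ T, ∃ t u : ℝ, TT (co a) d 0 t = 0 ∧
      TT (co a) (d - 1) 0 t + TT (co a) d 1 t * u = 0 ∧
      TT (co a) (d - 2) 0 t + TT (co a) (d - 1) 1 t * u + TT (co a) d 2 t * u ^ 2 = 0 :=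
    fun a ha => lines_fail (by omega) (hz a ha).1 (hz a ha).2
  choose! t u htu using hex
  have hupd : ∀ a ∈ T, Function.update a p2 0 = Function.update c p2 0 := by
    intro a ha
    funext i
    by_cases hi : i = p2
    · rw [hi, Function.update_self, Function.update_self]
    · rw [Function.update_of_ne hi, Function.update_of_ne hi]
      exact hTb a ha i (by rwa [mem_singleton])
  obtain ⟨b0, hb0⟩ : ∃ b0, b0 = Function.update c p2 0 := ⟨_, rfl⟩
  rw [← hb0] at hupd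
  have e1 : ∀ a ∈ T, ∀ k i s, k ≠ d - 2 → TT (co a) k i s = TT (co b0) k i s := by
    intro a ha k i s hk
    rw [← hupd a ha, TT_update_ne]
    left
    rw [hp21]
    exact hk
  have e2 : ∀ a ∈ T, ∀ s, TT (co a) (d - 2) 0 s = a p2 + TT (co b0) (d - 2) 0 s := by
    intro a ha s
    have h1 := TT_update a p2 s
    rw [hupd a ha, hp21, hp22] at h1
    exact h1
  refine le_trans ?_ (card_rts (co a₀) d)
  apply card_le_card_of_injOn t
  · intro a ha
    rw [mem_coe] at ha ⊢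
    apply mem_rts (noRoot_of_lead (by omega) (hz a₀ h0).1)
    rw [e1 a₀ h0 d 0 _ (by omega), ← e1 a ha d 0 _ (by omega)]
    exact (htu a ha).1
  · intro a ha a' ha' haa
    rw [mem_coe] at ha ha'
    obtain ⟨f1, f2, f3⟩ := htu a ha
    obtain ⟨g1, g2, g3⟩ := htu a' ha'
    have hne := TT1_ne (by omega) (hz a ha).1 f1
    rw [← haa] at g1 g2 g3
    rw [e1 a ha (d - 1) 0 _ (by omega), e1 a ha d 1 _ (by omega)] at f2
    rw [e1 a' ha' (d - 1) 0 _ (by omega), e1 a' ha' d 1 _ (by omega)] at g2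
    rw [e1 a ha d 1 _ (by omega)] at hne
    have hu : u a = u a' := by
      apply mul_left_cancel₀ hne
      linarith
    rw [e2 a ha, e1 a ha (d - 1) 1 _ (by omega), e1 a ha d 2 _ (by omega)] at f3
    rw [e2 a' ha', e1 a' ha' (d - 1) 1 _ (by omega), e1 a' ha' d 2 _ (by omega), ← hu] at g3
    have h5 : (a p2 : ℝ) = a' p2 := by linarith
    funext i
    by_cases hi : i = p2
    · rw [hi]
      exact_mod_cast h5
    · rw [hTb a ha i (by rwa [mem_singleton]), hTb a' ha' i (by rwa [mem_singleton])]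

lemma C5_nonneg (n r : ℕ) : (0 : ℝ) ≤ 1 + 12 * 2 ^ n * (2 + (r : ℝ) ^ 2) := by
  positivity

/-- **One chart.** -/
theorem card_y {b : Cf d} (hd : 10 ≤ d) (hL : Lead b) : ∃ C : ℝ, 0 ≤ C ∧ ∀ H : ℕ, 1 ≤ H →
    ∀ S : Finset (Cf d), S ⊆ QF b H →
    (∀ a ∈ S, ∃ x y : ℤ, Fv (co a) d x y = 0 ∧ |x| ≤ |y|) →
    (S.card : ℝ) ≤ C * (2 * (H : ℝ) + 1) ^ (MM d - (d + 1) - 1) := by
  classical
  obtain ⟨c, hc0, hc1, hcb⟩ := exists_cst (by omega : 1 ≤ d) hL
  obtain ⟨G, N, hLF⟩ := exists_largeF (d := d) (by omega)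
  obtain ⟨A, hA⟩ : ∃ A : ℕ, A = ⌈312 * KN d 1 ^ 5 * c1 d * (1 / c) ^ 5⌉₊ := ⟨_, rfl⟩
  have hcp := c1_pos d
  have hK := KN_one (d := d) (le_refl (1 : ℝ))
  have hAle : 312 * KN d 1 ^ 5 * c1 d * (1 / c) ^ 5 ≤ A := by
    rw [hA]
    exact Nat.le_ceil _
  obtain ⟨v, hv⟩ : ∃ v : ℝ, v = 1 / c := ⟨_, rfl⟩
  have hv1 : 1 ≤ v := by rw [hv, le_div_iff₀ hc0]; linarith
  have hA1 : (312 : ℝ) ≤ A := by
    refine le_trans ?_ hAle
    rw [← hv]
    have h1 : 1 ≤ KN d 1 ^ 5 := one_le_pow₀ hK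
    have h2 : 1 ≤ v ^ 5 := one_le_pow₀ hv1
    calc (312 : ℝ) = 312 * 1 * 1 * 1 := by norm_num
      _ ≤ _ := by gcongr
  obtain ⟨L, hLd⟩ : ∃ L : ℝ, L = G * (Real.log ((d + 1) * MM d) + 2) := ⟨_, rfl⟩
  have hM1 : (1 : ℝ) ≤ (d + 1) * MM d := by
    have h1 : 1 ≤ (d + 1) * MM d := Nat.mul_pos (Nat.succ_pos d) (by have := MM_pos d; omega)
    exact_mod_cast h1
  have hL0 : 0 ≤ L := by
    rw [hLd]
    have := Real.log_nonneg hM1
    positivity
  have hs1 : 0 ≤ s1 d := by unfold s1; positivity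
  obtain ⟨C1, hC1⟩ : ∃ C1 : ℝ, C1 = 1 + 12 * 2 ^ (d - 1) * (2 + (A : ℝ) ^ 2) := ⟨_, rfl⟩
  obtain ⟨C2, hC2⟩ : ∃ C2 : ℝ, C2 = 3 * A * (d * (4 * d * c1 d * v + 1)) := ⟨_, rfl⟩
  obtain ⟨C3, hC3⟩ : ∃ C3 : ℝ, C3 = 3 * d + 8 * s1 d * d * (4 * KN d 1 * L + 1) * (1 / c) ^ 5 :=
    ⟨_, rfl⟩
  have hC1' : 0 ≤ C1 := by rw [hC1]; exact C5_nonneg _ _
  have hv0 : 0 ≤ v := by linarith
  have hC2' : 0 ≤ C2 := by rw [hC2]; positivity
  have hC3' : 0 ≤ C3 := by
    rw [hC3, ← hv]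
    have h3 : 0 ≤ 4 * KN d 1 * L + 1 := by positivity
    positivity
  refine ⟨C1 + C2 + C3 + d + N, by
    have h1 : (0 : ℝ) ≤ d := Nat.cast_nonneg d
    have h2 : (0 : ℝ) ≤ N := Nat.cast_nonneg N
    linarith, fun H hH S hS hz => ?_⟩
  have hH' : (1 : ℝ) ≤ H := by exact_mod_cast hH
  have hX : (1 : ℝ) ≤ 2 * (H : ℝ) + 1 := by linarith
  have hM := MM_big (by omega : 4 ≤ d)
  have hlog0 : 0 ≤ Real.log (Yn d H G : ℝ) := Real.log_natCast_nonneg _
  have hlog : Real.log (Yn d H G : ℝ) ≤ L * Real.sqrt H := by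
    rw [Real.sqrt_eq_rpow, hLd]
    exact log_Yn_le hH
  have habs : ∀ n : ℤ, |(n : ℝ)| = ((n.natAbs : ℕ) : ℝ) := by
    intro n
    rw [← Int.cast_abs, Int.abs_eq_natAbs, Int.cast_natCast]
  have hlead : ∀ a ∈ S, Lead a := fun a ha => lead_congr (mem_QF.1 (hS ha)).2 hL
  have hH2 : (H : ℝ) ≤ (H : ℝ) ^ 2 := by nlinarith
  have hsub : S ⊆
      S.filter (fun a => ∃ x y : ℤ, |x| ≤ |y| ∧ y.natAbs ≤ A * H ^ 2 ∧ Fv (co a) d x y = 0) ∪
      (S.filter (fun a => ∃ x y : ℤ, Fv (co a) d x y = 0 ∧ |x| ≤ |y| ∧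
        4 * d ^ 2 * c1 d ^ 2 * (H / c) ^ 2 ≤ |(y : ℝ)| ∧ 2 * H < y.natAbs ∧
        y.natAbs ≤ A * H ^ 6) ∪
      (S.filter (fun a => YT d H (A * (H : ℝ) ^ 6) (Yn d H G) a) ∪
      (S.filter (fun a => ¬ LinesC a) ∪
      S.filter (fun a => LinesC a ∧ ∃ x y : ℤ, Fv (co a) d x y = 0 ∧
        ((d + 1) * Pool.Agent.H322R2.len (poly a)) ^ G < max x.natAbs y.natAbs)))) := by
    intro a ha
    simp only [mem_union, mem_filter]
    obtain ⟨x, y, h0, hxy⟩ := hz a ha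
    have hxy' : x.natAbs ≤ y.natAbs := by
      have h1 := hxy
      rw [Int.abs_eq_natAbs, Int.abs_eq_natAbs] at h1
      exact_mod_cast h1
    by_cases h1 : y.natAbs ≤ A * H ^ 2
    · exact Or.inl ⟨ha, x, y, hxy, h1, h0⟩
    rw [not_le] at h1
    have h1' : (A : ℝ) * (H : ℝ) ^ 2 < (y.natAbs : ℝ) := by exact_mod_cast h1
    by_cases h2 : y.natAbs ≤ A * H ^ 6
    · right; left
      refine ⟨ha, x, y, h0, hxy, ?_, ?_, h2⟩
      · rw [habs]
        refine le_trans ?_ h1'.le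
        have hKd : 2 * d * c1 d ≤ KN d 1 := by
          have h1 := (KN_ge (d := d) (le_refl (1 : ℝ))).1
          unfold WW at h1
          linarith
        have hwv : (H : ℝ) / c = v * H := by rw [hv]; ring
        rw [hwv]
        calc 4 * d ^ 2 * c1 d ^ 2 * (v * H) ^ 2 = 1 * (2 * d * c1 d) ^ 2 * 1 * v ^ 2 * (H : ℝ) ^ 2 := by
              ring
          _ ≤ 312 * KN d 1 ^ 5 * c1 d * v ^ 5 * (H : ℝ) ^ 2 := by
            have h1 : (2 * d * c1 d) ^ 2 ≤ KN d 1 ^ 5 :=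
              (pow_le_pow_left₀ (by positivity) hKd 2).trans (pow_le_pow_right₀ hK (by norm_num))
            have h2 : v ^ 2 ≤ v ^ 5 := pow_le_pow_right₀ hv1 (by norm_num)
            gcongr
            norm_num
          _ ≤ A * (H : ℝ) ^ 2 := by
            rw [hv]
            gcongr
      · have h3 : 2 * (H : ℝ) < (y.natAbs : ℝ) := by
          refine lt_of_le_of_lt ?_ h1'
          calc 2 * (H : ℝ) ≤ 312 * (H : ℝ) ^ 2 := by linarith
            _ ≤ _ := by gcongr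
        exact_mod_cast h3
    rw [not_le] at h2
    by_cases h3 : y.natAbs ≤ Yn d H G
    · right; right; left
      refine ⟨ha, noRoot_of_lead (by omega) (hlead a ha), x, y, h0, hxy, ?_, ?_⟩
      · rw [habs]
        exact_mod_cast h2.le
      · rw [habs]
        exact_mod_cast h3
    rw [not_le] at h3
    by_cases h4 : LinesC a
    · right; right; right; right
      refine ⟨ha, h4, x, y, h0, ?_⟩
      refine lt_of_le_of_lt ?_ (lt_of_lt_of_le h3 (le_max_right _ _))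
      unfold Yn
      apply Nat.pow_le_pow_left
      exact Nat.mul_le_mul_left _ (len_poly (QF_sub b H (hS ha)))
    · exact Or.inr (Or.inr (Or.inr (Or.inl ⟨ha, h4⟩)))
  have b1 := small_QF (A := A) (by omega : 5 ≤ d) hH (b := b)
    (S := S.filter (fun a => ∃ x y : ℤ, |x| ≤ |y| ∧ y.natAbs ≤ A * H ^ 2 ∧ Fv (co a) d x y = 0))
    ((filter_subset _ _).trans hS) (fun a ha => (mem_filter.1 ha).2)
  rw [← hC1] at b1
  have b2 := mid1_QF hH hc0 hc1 hcb (by omega : 4 ≤ d) hL (X := A * H ^ 6)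
    (S := S.filter (fun a => ∃ x y : ℤ, Fv (co a) d x y = 0 ∧ |x| ≤ |y| ∧
        4 * d ^ 2 * c1 d ^ 2 * (H / c) ^ 2 ≤ |(y : ℝ)| ∧ 2 * H < y.natAbs ∧
        y.natAbs ≤ A * H ^ 6)) ((filter_subset _ _).trans hS) (fun a ha => (mem_filter.1 ha).2)
  have b3 := mid2_QF hH hc0 hc1 hcb hd (Y₀ := A * (H : ℝ) ^ 6) (L := L)
    (by gcongr) hL0 hlog0 hlog
    (S := S.filter (fun a => YT d H (A * (H : ℝ) ^ 6) (Yn d H G) a))
    ((filter_subset _ _).trans hS) (fun a ha => (mem_filter.1 ha).2)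
  rw [← hC3] at b3
  obtain ⟨p2, hp2⟩ : ∃ p2 : ↥(I d), p2.1 = (d - 2, 0) :=
    ⟨⟨(d - 2, 0), by rw [mem_I]; exact ⟨Nat.sub_le _ _, Nat.zero_le _⟩⟩, rfl⟩
  have b4 := rel_QF (H := H) (b := b) (S := S.filter (fun a => ¬ LinesC a))
    ((filter_subset _ _).trans hS) {p2} (by
      intro p hp
      rw [mem_singleton] at hp
      rw [hp, hp2]
      simp only
      omega) (B := d) (Nat.cast_nonneg _) (by
      intro b' T hT hTb
      have h1 := lines_fiber (by omega : 4 ≤ d) p2 hp2 T b' hTb (fun a ha =>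
        ⟨hlead a (mem_filter.1 (hT ha)).1, (mem_filter.1 (hT ha)).2⟩)
      exact_mod_cast h1) (card_singleton _) (by omega)
  have h00 : (0, 0) ∈ I d := by rw [mem_I]; exact ⟨Nat.zero_le _, le_rfl⟩
  have b5 := rel_QF (H := H) (b := b) (S := S.filter (fun a => LinesC a ∧ ∃ x y : ℤ,
      Fv (co a) d x y = 0 ∧
        ((d + 1) * Pool.Agent.H322R2.len (poly a)) ^ G < max x.natAbs y.natAbs))
    ((filter_subset _ _).trans hS) {⟨(0, 0), h00⟩} (by
      intro p hp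
      rw [mem_singleton] at hp
      rw [hp]
      simp only
      omega) (B := N) (Nat.cast_nonneg _) (by
      intro b' T hT hTb
      have h1 := hLF T b' (by
        intro a ha i hi
        apply hTb a ha
        intro h3
        rw [mem_singleton] at h3
        apply hi
        rw [h3, mem_filter]
        refine ⟨mem_univ _, ?_⟩
        show 0 + 4 ≤ d
        omega) (fun a ha => by
          have h2 := mem_filter.1 (hT ha)
          exact ⟨hlead a h2.1, h2.2.1, h2.2.2⟩)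
      exact_mod_cast h1) (card_singleton _) (by omega)
  have b2' : ((S.filter (fun a => ∃ x y : ℤ, Fv (co a) d x y = 0 ∧ |x| ≤ |y| ∧
        4 * d ^ 2 * c1 d ^ 2 * (H / c) ^ 2 ≤ |(y : ℝ)| ∧ 2 * H < y.natAbs ∧
        y.natAbs ≤ A * H ^ 6)).card : ℝ) ≤ C2 * (2 * (H : ℝ) + 1) ^ (MM d - (d + 1) - 1) := by
    refine b2.trans ?_
    have hwv : (H : ℝ) / c = v * H := by rw [hv]; ring
    rw [hwv]
    have h7 : (H : ℝ) ^ 7 * (2 * (H : ℝ) + 1) ^ (MM d - (d + 1) - d) ≤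
        (2 * (H : ℝ) + 1) ^ (MM d - (d + 1) - 1) := by
      calc (H : ℝ) ^ 7 * (2 * (H : ℝ) + 1) ^ (MM d - (d + 1) - d)
          ≤ (2 * (H : ℝ) + 1) ^ 7 * (2 * (H : ℝ) + 1) ^ (MM d - (d + 1) - d) := by
            gcongr
            linarith
        _ = (2 * (H : ℝ) + 1) ^ (7 + (MM d - (d + 1) - d)) := by rw [← pow_add]
        _ ≤ _ := by
            apply pow_le_pow_right₀ hX
            omega
    have hH6 : (1 : ℝ) ≤ (H : ℝ) ^ 6 := one_le_pow₀ hH'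
    have h8 : 2 * (((A * H ^ 6 : ℕ)) : ℝ) + 1 ≤ 3 * A * (H : ℝ) ^ 6 := by
      push_cast
      nlinarith
    have h9 : (d : ℝ) * (2 * (2 * d * c1 d * (v * H)) + 1) ≤
        d * (4 * d * c1 d * v + 1) * H := by
      have h10 : 0 ≤ (d : ℝ) * ((H : ℝ) - 1) := mul_nonneg (Nat.cast_nonneg _) (by linarith)
      have h11 : d * (4 * d * c1 d * v + 1) * (H : ℝ) =
        d * (2 * (2 * d * c1 d * (v * H)) + 1) + (d : ℝ) * ((H : ℝ) - 1) := by ring
      rw [h11]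
      linarith
    calc (2 * (((A * H ^ 6 : ℕ)) : ℝ) + 1) * (d * (2 * (2 * d * c1 d * (v * H)) + 1)) *
          (2 * (H : ℝ) + 1) ^ (MM d - (d + 1) - d)
        ≤ (3 * A * (H : ℝ) ^ 6) * (d * (4 * d * c1 d * v + 1) * H) *
          (2 * (H : ℝ) + 1) ^ (MM d - (d + 1) - d) := by gcongr
      _ = C2 * ((H : ℝ) ^ 7 * (2 * (H : ℝ) + 1) ^ (MM d - (d + 1) - d)) := by
          rw [hC2]
          ring
      _ ≤ _ := mul_le_mul_of_nonneg_left h7 hC2'
  have hcard := (card_le_card hsub).trans ((card_union_le _ _).trans (add_le_add le_rfl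
    ((card_union_le _ _).trans (add_le_add le_rfl
    ((card_union_le _ _).trans (add_le_add le_rfl (card_union_le _ _)))))))
  have hcard' := (Nat.cast_le (α := ℝ)).2 hcard
  simp only [Nat.cast_add] at hcard'
  have e : (C1 + C2 + C3 + d + N) * (2 * (H : ℝ) + 1) ^ (MM d - (d + 1) - 1) =
      C1 * (2 * (H : ℝ) + 1) ^ (MM d - (d + 1) - 1) +
      C2 * (2 * (H : ℝ) + 1) ^ (MM d - (d + 1) - 1) +
      C3 * (2 * (H : ℝ) + 1) ^ (MM d - (d + 1) - 1) +
      d * (2 * (H : ℝ) + 1) ^ (MM d - (d + 1) - 1) +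
      N * (2 * (H : ℝ) + 1) ^ (MM d - (d + 1) - 1) := by ring
  rw [e]
  linarith

end Pool.Agent.R414.DT
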