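import Pool.Agent.R414.DS.Fin3

set_option autoImplicit false
set_option linter.unusedSectionVars false

/-! Curves with a prescribed leading form: relative counting. -/

open Finset

namespace Pool.Agent.R414.DT

open Pool.Agent.R414.DN Pool.Agent.R414.DS

variable {d : ℕ}

/-- the vectors of the box with the leading row of `b` -/
noncomputable def QF (b : Cf d) (H : ℕ) : Finset (Cf d) := by
  classical
  exact (ibox ↥(I d) H).filter fun a => ∀ i, co a d i = co b d i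

lemma mem_QF {b : Cf d} {H : ℕ} {a : Cf d} :
    a ∈ QF b H ↔ a ∈ ibox ↥(I d) H ∧ ∀ i, co a d i = co b d i := by
  classical
  unfold QF
  rw [mem_filter]

lemma QF_sub (b : Cf d) (H : ℕ) : QF b H ⊆ ibox ↥(I d) H := fun _ ha => (mem_QF.1 ha).1

lemma card_QF_le (b : Cf d) (H : ℕ) : (QF b H).card ≤ (2 * H + 1) ^ (MM d - (d + 1)) := by
  classical
  have key := card_fiber (H := H) (S := QF b H) (QF_sub b H) (JT d) 1 ?_
  · rw [card_JT, one_mul] at key
    exact key
  intro c T hT hTb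
  rw [card_le_one]
  intro a ha a' ha'
  have e1 := (mem_QF.1 (hT ha)).2
  have e2 := (mem_QF.1 (hT ha')).2
  funext p
  by_cases hp : p ∈ JT d
  · have hpI := mem_I.1 p.2
    unfold JT at hp
    rw [mem_filter] at hp
    have h4 : (d, p.1.2) ∈ I d := by rw [mem_I]; omega
    have h5 : p = ⟨(d, p.1.2), h4⟩ := by
      apply Subtype.ext
      apply Prod.ext
      · exact hp.2
      · rfl
    have h6 := (e1 p.1.2).trans (e2 p.1.2).symm
    rw [co_of_mem a h4, co_of_mem a' h4] at h6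
    rw [h5]
    exact h6
  · rw [hTb a ha p hp, hTb a' ha' p hp]

/-- relative fibre bound -/
lemma rel_QF {b : Cf d} {H : ℕ} {S : Finset (Cf d)} (hS : S ⊆ QF b H) (J : Finset ↥(I d))
    (hJ : ∀ p ∈ J, p.1.1 ≠ d) {B : ℝ} (hB0 : 0 ≤ B)
    (h : ∀ c : Cf d, ∀ T ⊆ S, (∀ a ∈ T, ∀ i ∉ J, a i = c i) → (T.card : ℝ) ≤ B) {n : ℕ}
    (hn : J.card = n) (hle : n ≤ MM d - (d + 1)) :
    (S.card : ℝ) ≤ B * (2 * (H : ℝ) + 1) ^ (MM d - (d + 1) - n) := by
  classical
  have hX0 : (0 : ℝ) < 2 * (H : ℝ) + 1 := by positivity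
  have key := card_fiber_rel (H := H) (Q := QF b H) (S := S) (QF_sub b H) hS J (by
    intro a ha a' ha' haa
    rw [mem_QF] at ha ⊢
    refine ⟨ha', fun i => ?_⟩
    rw [← ha.2 i]
    by_cases hmem : (d, i) ∈ I d
    · rw [co_of_mem a hmem, co_of_mem a' hmem]
      apply haa
      intro h1
      exact hJ _ h1 rfl
    · unfold co
      rw [dif_neg hmem, dif_neg hmem]) hB0 h
  rw [hn] at key
  have h1 : ((QF b H).card : ℝ) ≤ (2 * (H : ℝ) + 1) ^ (MM d - (d + 1)) := by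
    exact_mod_cast card_QF_le b H
  have h2 : (2 * (H : ℝ) + 1) ^ (MM d - (d + 1)) =
      (2 * (H : ℝ) + 1) ^ (MM d - (d + 1) - n) * (2 * (H : ℝ) + 1) ^ n := by
    rw [← pow_add]
    congr 1
    omega
  have h3 : (S.card : ℝ) * (2 * (H : ℝ) + 1) ^ n ≤
      (B * (2 * (H : ℝ) + 1) ^ (MM d - (d + 1) - n)) * (2 * (H : ℝ) + 1) ^ n := by
    refine key.trans ?_
    calc B * ((QF b H).card : ℝ) ≤ B * (2 * (H : ℝ) + 1) ^ (MM d - (d + 1)) := by gcongr
      _ = _ := by rw [h2]; ring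
  exact le_of_mul_le_mul_right h3 (by positivity)

/-- the indices of the powers of `y` of degree below `d` -/
def J5 (d : ℕ) : Finset ↥(I d) := univ.filter fun p => p.1.2 = 0 ∧ p.1.1 < d

lemma card_J5 (d : ℕ) : (J5 d).card = d := by
  suffices key : (J5 d).card = (range d).card by rw [key, card_range]
  refine card_bij' (fun p _ => p.1.1) (fun k hk => ip d k (by rw [mem_range] at hk; omega)) ?_ ?_
    ?_ ?_
  · intro p hp
    unfold J5 at hp
    rw [mem_filter] at hp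
    rw [mem_range]
    exact hp.2.2
  · intro k hk
    rw [mem_range] at hk
    unfold J5
    rw [mem_filter]
    exact ⟨mem_univ _, rfl, hk⟩
  · intro p hp
    unfold J5 at hp
    rw [mem_filter] at hp
    apply Subtype.ext
    apply Prod.ext
    · rfl
    · exact hp.2.1.symm
  · intro k hk
    rfl

lemma MM_big (hd : 4 ≤ d) : d + d ≤ MM d - (d + 1) := by
  rw [MM_eq]
  obtain ⟨e, rfl⟩ : ∃ e, d = e + 4 := ⟨d - 4, by omega⟩
  have h2 : (e + 4 + 1) * (e + 4 + 2) = e * e + 11 * e + 30 := by ring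
  rw [h2]
  have h3 : 0 ≤ e * e := Nat.zero_le _
  rcases Nat.eq_zero_or_pos e with h | h
  · subst h
    norm_num
  · omega

lemma zero_at_QF (hd : 4 ≤ d) {b : Cf d} {H : ℕ} {S : Finset (Cf d)} (hS : S ⊆ QF b H) {x y : ℤ}
    (hy : y ≠ 0) (hz : ∀ a ∈ S, Fv (co a) d x y = 0) :
    (S.card : ℝ) ≤ ((2 * H / y.natAbs + 1 : ℕ) : ℝ) ^ (d - 1) *
      (2 * (H : ℝ) + 1) ^ (MM d - (d + 1) - d) := by
  classical
  obtain ⟨e, rfl⟩ : ∃ e, d = e + 1 := ⟨d - 1, by omega⟩
  have hM := MM_big hd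
  refine rel_QF hS (J5 (e + 1)) (fun p hp => ?_) (by positivity) ?_ (card_J5 _) (by omega)
  · unfold J5 at hp
    rw [mem_filter] at hp
    omega
  intro c T hT hTb
  rcases T.eq_empty_or_nonempty with h0 | ⟨a₀, h0⟩
  · rw [h0, card_empty, Nat.cast_zero]
    positivity
  have e0 : e + 1 - 1 = e := rfl
  rw [e0, ← Nat.cast_pow]
  apply Nat.cast_le.2
  refine le_trans ?_ (card_digits H y hy e (∑ j : Fin (e + 1), co a₀ j 0 * y ^ (j : ℕ)))
  apply card_le_card_of_injOn (fun a (j : Fin (e + 1)) => co a j 0)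
  · intro a ha
    rw [mem_coe] at ha
    have ha1 := mem_QF.1 (hS (hT ha))
    have ha0 := mem_QF.1 (hS (hT h0))
    rw [mem_coe, mem_filter, mem_ibox]
    refine ⟨fun i => co_le ha1.1 _ _, ?_⟩
    have h1 : Fv (co a) (e + 1) x y - Fv (co a₀) (e + 1) x y =
        ∑ k ∈ range (e + 1), (co a k 0 * y ^ k - co a₀ k 0 * y ^ k) := by
      unfold Fv
      rw [sum_range_succ (fun k => ∑ i ∈ range (k + 1), co a k i * (x ^ i * y ^ (k - i))) (e + 1),
        sum_range_succ (fun k => ∑ i ∈ range (k + 1), co a₀ k i * (x ^ i * y ^ (k - i))) (e + 1)]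
      have h2 : ∑ i ∈ range (e + 1 + 1), co a (e + 1) i * (x ^ i * y ^ (e + 1 - i)) =
          ∑ i ∈ range (e + 1 + 1), co a₀ (e + 1) i * (x ^ i * y ^ (e + 1 - i)) := by
        refine sum_congr rfl fun i _ => ?_
        rw [ha1.2 i, ha0.2 i]
      rw [h2, add_sub_add_right_eq_sub, ← sum_sub_distrib]
      refine sum_congr rfl fun k hk => ?_
      rw [← sum_sub_distrib, sum_eq_single_of_mem 0 (mem_range.2 (Nat.succ_pos k))]
      · simp
      · intro i hi hi0
        rw [mem_range] at hk hi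
        have hmem : (k, i) ∈ I (e + 1) := by rw [mem_I]; omega
        have hnJ : (⟨(k, i), hmem⟩ : ↥(I (e + 1))) ∉ J5 (e + 1) := by
          unfold J5
          rw [mem_filter]
          rintro ⟨-, h, -⟩
          exact hi0 h
        rw [co_of_mem a hmem, co_of_mem a₀ hmem, hTb a ha _ hnJ, hTb a₀ h0 _ hnJ, sub_self]
    rw [hz a (hT ha), hz a₀ (hT h0), sub_zero, sum_sub_distrib] at h1
    rw [Fin.sum_univ_eq_sum_range (fun k => co a k 0 * y ^ k),
      Fin.sum_univ_eq_sum_range (fun k => co a₀ k 0 * y ^ k)]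
    linarith
  · intro a ha a' ha' haa
    rw [mem_coe] at ha ha'
    funext p
    by_cases hp : p ∈ J5 (e + 1)
    · have hpI := mem_I.1 p.2
      unfold J5 at hp
      rw [mem_filter] at hp
      have h2 := congrFun haa ⟨p.1.1, hp.2.2⟩
      simp only at h2
      have h3 : p = ip (e + 1) p.1.1 hpI.1 := by
        apply Subtype.ext
        apply Prod.ext
        · rfl
        · exact hp.2.1
      rw [co_of_mem a (ip (e + 1) p.1.1 hpI.1).2, co_of_mem a' (ip (e + 1) p.1.1 hpI.1).2] at h2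
      rw [h3]
      exact h2
    · rw [hTb a ha p hp, hTb a' ha' p hp]

lemma zero_at_zero_QF (hd : 4 ≤ d) {b : Cf d} {H : ℕ} {S : Finset (Cf d)} (hS : S ⊆ QF b H)
    (hz : ∀ a ∈ S, Fv (co a) d 0 0 = 0) :
    (S.card : ℝ) ≤ 1 * (2 * (H : ℝ) + 1) ^ (MM d - (d + 1) - 1) := by
  classical
  have hM := MM_big hd
  refine rel_QF hS {ip d 0 (Nat.zero_le _)} (fun p hp => ?_) zero_le_one ?_ (card_singleton _)
    (by omega)
  · rw [mem_singleton] at hp
    rw [hp]
    show (0 : ℕ) ≠ d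
    omega
  intro c T hT hTb
  have h1 : T.card ≤ 1 := by
    rw [card_le_one]
    intro a ha a' ha'
    have h2 : Fv (co a) d 0 0 = co a 0 0 ∧ Fv (co a') d 0 0 = co a' 0 0 := by
      have key : ∀ a : Cf d, Fv (co a) d 0 0 = co a 0 0 := by
        intro a
        unfold Fv
        rw [sum_eq_single_of_mem 0 (mem_range.2 (Nat.succ_pos d))]
        · simp
        · intro k _ hk
          apply sum_eq_zero
          intro i hi
          rw [mem_range] at hi
          rcases Nat.eq_zero_or_pos i with h0 | h0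
          · rw [h0, Nat.sub_zero, zero_pow hk, mul_zero, mul_zero]
          · rw [zero_pow h0.ne', zero_mul, mul_zero]
      exact ⟨key a, key a'⟩
    have h3 := h2.1.symm.trans (hz a (hT ha))
    have h4 := h2.2.symm.trans (hz a' (hT ha'))
    rw [co_of_mem _ (ip d 0 (Nat.zero_le _)).2] at h3 h4
    funext p
    by_cases hp : p = ip d 0 (Nat.zero_le _)
    · rw [hp]
      exact h3.trans h4.symm
    · have hp' : p ∉ ({ip d 0 (Nat.zero_le _)} : Finset ↥(I d)) := by rwa [mem_singleton]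
      rw [hTb a ha p hp', hTb a' ha' p hp']
  exact_mod_cast h1

/-- **Small points.** -/
theorem small_QF {H A : ℕ} (hd : 5 ≤ d) (hH : 1 ≤ H) {b : Cf d} {S : Finset (Cf d)}
    (hS : S ⊆ QF b H)
    (hz : ∀ a ∈ S, ∃ x y : ℤ, |x| ≤ |y| ∧ y.natAbs ≤ A * H ^ 2 ∧ Fv (co a) d x y = 0) :
    (S.card : ℝ) ≤ (1 + 12 * 2 ^ (d - 1) * (2 + (A : ℝ) ^ 2)) *
      (2 * (H : ℝ) + 1) ^ (MM d - (d + 1) - 1) := by
  classical
  have hHr : (1 : ℝ) ≤ H := by exact_mod_cast hH
  have hM := MM_big (by omega : 4 ≤ d)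
  have hsub : S ⊆ (S.filter fun a => Fv (co a) d 0 0 = 0) ∪
      (range (A * H ^ 2)).biUnion fun Y =>
        ((shell (Y + 1)).filter fun P => P.2.natAbs = Y + 1).biUnion fun P =>
        S.filter fun a => Fv (co a) d P.1 P.2 = 0 := by
    intro a ha
    obtain ⟨x, y, hxy, hy, h0⟩ := hz a ha
    have hxy' : x.natAbs ≤ y.natAbs := by
      rw [Int.abs_eq_natAbs, Int.abs_eq_natAbs] at hxy
      exact_mod_cast hxy
    rw [mem_union]
    by_cases hy0 : y = 0
    · left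
      rw [mem_filter]
      have hx0 : x = 0 := by
        rw [hy0] at hxy'
        simpa using hxy'
      rw [hx0, hy0] at h0
      exact ⟨ha, h0⟩
    · right
      rw [mem_biUnion]
      refine ⟨y.natAbs - 1, ?_, ?_⟩
      · rw [mem_range]
        omega
      · rw [mem_biUnion]
        refine ⟨(x, y), ?_, ?_⟩
        · unfold shell
          simp only [mem_filter, mem_product, mem_Icc]
          omega
        · rw [mem_filter]
          exact ⟨ha, h0⟩
  have hcard : (S.card : ℝ) ≤ 1 * (2 * (H : ℝ) + 1) ^ (MM d - (d + 1) - 1) +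
      ∑ Y ∈ range (A * H ^ 2),
      (4 * (2 * ((Y : ℝ) + 1) + 1)) * ((((2 * H / (Y + 1) + 1) ^ (d - 1) : ℕ) : ℝ) *
        (2 * (H : ℝ) + 1) ^ (MM d - (d + 1) - d)) := by
    have h1 := (Nat.cast_le (α := ℝ)).2 ((card_le_card hsub).trans ((card_union_le _ _).trans
      (add_le_add le_rfl card_biUnion_le)))
    push_cast at h1
    refine h1.trans (add_le_add ?_ (sum_le_sum fun Y _ => ?_))
    · exact zero_at_zero_QF (by omega) ((filter_subset _ _).trans hS)
        (fun a ha => (mem_filter.1 ha).2)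
    have h2 := (Nat.cast_le (α := ℝ)).2 (card_biUnion_le
      (s := (shell (Y + 1)).filter fun P => P.2.natAbs = Y + 1)
      (t := fun P => S.filter fun a => Fv (co a) d P.1 P.2 = 0))
    refine h2.trans ?_
    push_cast
    calc ∑ P ∈ (shell (Y + 1)).filter fun P => P.2.natAbs = Y + 1,
          ((S.filter fun a => Fv (co a) d P.1 P.2 = 0).card : ℝ)
        ≤ ∑ P ∈ (shell (Y + 1)).filter fun P => P.2.natAbs = Y + 1,
          (((2 * H / (Y + 1) + 1 : ℕ) : ℝ) ^ (d - 1) *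
            (2 * (H : ℝ) + 1) ^ (MM d - (d + 1) - d)) := by
          apply sum_le_sum
          intro P hP
          have hP2 := (mem_filter.1 hP).2
          have hne : P.2 ≠ 0 := by
            intro h
            rw [h] at hP2
            simp at hP2
          have h3 := zero_at_QF (by omega : 4 ≤ d) ((filter_subset _ _).trans hS) (x := P.1) hne
            (S := S.filter fun a => Fv (co a) d P.1 P.2 = 0) (fun a ha => (mem_filter.1 ha).2)
          rw [hP2] at h3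
          exact h3
      _ = (((shell (Y + 1)).filter fun P => P.2.natAbs = Y + 1).card : ℝ) * _ := by
          rw [sum_const, nsmul_eq_mul]
      _ ≤ _ := by
          have h4 : ((shell (Y + 1)).filter fun P => P.2.natAbs = Y + 1).card ≤
            4 * (2 * (Y + 1) + 1) := (card_le_card (filter_subset _ _)).trans (card_shell _)
          have h5 : (((shell (Y + 1)).filter fun P => P.2.natAbs = Y + 1).card : ℝ) ≤
            4 * (2 * ((Y : ℝ) + 1) + 1) := by exact_mod_cast h4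
          push_cast
          gcongr
  refine hcard.trans ?_
  set B : ℝ := (2 * (H : ℝ) + 1) ^ (MM d - (d + 1) - d) with hB
  have hB0 : 0 < B := by rw [hB]; positivity
  have hterm : ∀ Y ∈ range (A * H ^ 2), (4 * (2 * ((Y : ℝ) + 1) + 1)) *
      ((((2 * H / (Y + 1) + 1) ^ (d - 1) : ℕ) : ℝ) * B) ≤
      12 * 2 ^ (d - 1) * B * ((2 * H) ^ (d - 1) * (1 / ((Y : ℝ) + 1) ^ 2) +
        (A : ℝ) * (H : ℝ) ^ 2) := by
    intro Y hY
    rw [mem_range] at hY
    have h1 := nat_div_bound (d - 1) H (Y + 1) (Nat.succ_pos Y)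
    push_cast at h1
    have hY1 : (1 : ℝ) ≤ (Y : ℝ) + 1 := by linarith [(Nat.cast_nonneg Y : (0 : ℝ) ≤ Y)]
    have hYH : (Y : ℝ) + 1 ≤ (A : ℝ) * (H : ℝ) ^ 2 := by exact_mod_cast hY
    have h2 : (4 * (2 * ((Y : ℝ) + 1) + 1)) ≤ 12 * ((Y : ℝ) + 1) := by linarith
    have h3 : ((Y : ℝ) + 1) * (1 / ((Y : ℝ) + 1) ^ (d - 1)) ≤ 1 / ((Y : ℝ) + 1) ^ 2 := by
      obtain ⟨e, he⟩ : ∃ e, d - 1 = e + 3 := ⟨d - 4, by omega⟩
      rw [he]
      have hY0 : (0 : ℝ) < (Y : ℝ) + 1 := by linarith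
      rw [mul_one_div, div_le_div_iff₀ (by positivity) (by positivity), one_mul,
        ← pow_succ']
      apply pow_le_pow_right₀ hY1
      omega
    push_cast
    calc (4 * (2 * ((Y : ℝ) + 1) + 1)) * (((2 * H / (Y + 1) : ℕ) + 1) ^ (d - 1) * B)
        ≤ (12 * ((Y : ℝ) + 1)) *
          ((2 ^ (d - 1) * ((2 * H) ^ (d - 1) / ((Y : ℝ) + 1) ^ (d - 1) + 1)) * B) := by
          gcongr
      _ = 12 * 2 ^ (d - 1) * B *
          ((2 * H) ^ (d - 1) * (((Y : ℝ) + 1) * (1 / ((Y : ℝ) + 1) ^ (d - 1))) +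
            ((Y : ℝ) + 1)) := by
          field_simp
      _ ≤ _ := by gcongr
  have hsum : ∑ Y ∈ range (A * H ^ 2), (4 * (2 * ((Y : ℝ) + 1) + 1)) *
      ((((2 * H / (Y + 1) + 1) ^ (d - 1) : ℕ) : ℝ) * B) ≤
      12 * 2 ^ (d - 1) * B * ((2 + (A : ℝ) ^ 2) * (2 * H + 1) ^ (d - 1)) := by
    refine (sum_le_sum hterm).trans ?_
    rw [← mul_sum, sum_add_distrib, ← mul_sum, sum_const, card_range, nsmul_eq_mul]
    have h1 := sum_inv_sq' (A * H ^ 2)
    have h2 : (((A * H ^ 2 : ℕ) : ℝ)) * ((A : ℝ) * (H : ℝ) ^ 2) ≤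
        (A : ℝ) ^ 2 * (2 * H + 1) ^ (d - 1) := by
      push_cast
      calc (A : ℝ) * (H : ℝ) ^ 2 * ((A : ℝ) * (H : ℝ) ^ 2) = (A : ℝ) ^ 2 * (H : ℝ) ^ 4 := by ring
        _ ≤ (A : ℝ) ^ 2 * (H : ℝ) ^ (d - 1) := by
          have := pow_le_pow_right₀ hHr (by omega : 4 ≤ d - 1)
          gcongr
        _ ≤ (A : ℝ) ^ 2 * (2 * H + 1) ^ (d - 1) := by gcongr; linarith
    have h3 : ((2 * H : ℝ)) ^ (d - 1) ≤ (2 * H + 1) ^ (d - 1) := by gcongr; linarith
    have h4 : (0 : ℝ) ≤ (2 * H + 1) ^ (d - 1) := by positivity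
    have h5 : (0 : ℝ) ≤ (2 * (H : ℝ)) ^ (d - 1) := by positivity
    gcongr
    nlinarith
  have hfin : (2 * (H : ℝ) + 1) ^ (MM d - (d + 1) - 1) = B * (2 * H + 1) ^ (d - 1) := by
    rw [hB, ← pow_add]
    congr 1
    omega
  rw [hfin] at *
  have h4 : 12 * 2 ^ (d - 1) * B * ((2 + (A : ℝ) ^ 2) * (2 * (H : ℝ) + 1) ^ (d - 1)) =
      12 * 2 ^ (d - 1) * (2 + (A : ℝ) ^ 2) * (B * (2 * H + 1) ^ (d - 1)) := by ring
  rw [h4] at hsum
  linarith

end Pool.Agent.R414.DT
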